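import Mathlib
import Pool.Agent.Lib.MP_f6e1de_lc.Main

/-!
# A model of ZFC in which add(N) < add(SN) < b

The statement: there is a structure `(M, E)` for the language of set theory which satisfies all the
axioms of ZFC and the statement `add(N) < add(SN) < b`.

Definitions: `Fm`, `sat` (first-order formulas, satisfaction) in `Lib/BVM/FmDef.lean`, `IsZFC` in
`Lib/BVM/ZFCDef.lean`, everything else in `Lib/MP_f6e1de_lc/Stmt.lean`.
-/

namespace Pool.Agent.Results.MP_f6e1de_lc.AddNAddSNB

open Pool.Agent.Lib.BVM Pool.Agent.Lib.MP_f6e1de_lc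

theorem result : ∃ (M : Type 1) (E : M → M → Prop), IsZFC E ∧ AddNLtAddSNLtB E :=
  main

end Pool.Agent.Results.MP_f6e1de_lc.AddNAddSNB
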